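import Pool.Agent.W95.BK.Stm

/-!
# Project BK: one step estimates for the spherical diameter (BK-ONE)
-/

open Polynomial Topology Filter MeasureTheory

namespace Pool.Agent.W655.BK

open Pool.Agent.W95.BK

universe u

section
variable {K : Type u} [NontriviallyNormedField K]

lemma BAadd (x : BA K) (f g : K[X]) : x (f + g) ≤ x f + x g :=
  (x.map_add' f g).trans (max_le_add_of_nonneg (x.nonneg' _) (x.nonneg' _))

lemma BAsum {ι : Type*} (s : Finset ι) (x : BA K) (f : ι → K[X]) :
    x (∑ i ∈ s, f i) ≤ ∑ i ∈ s, x (f i) := by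
  classical
  induction s using Finset.induction_on with
  | empty => simp [BA.map_zero]
  | insert i s hi ih =>
    rw [Finset.sum_insert hi, Finset.sum_insert hi]
    exact (BAadd _ _ _).trans (by linarith)

lemma BAneg (x : BA K) (f : K[X]) : x (-f) = x f := by
  have : -f = C (-1) * f := by simp
  rw [this, x.map_mul', x.map_C']
  simp

lemma BAsub (x : BA K) (f g : K[X]) : x (f - g) ≤ max (x f) (x g) := by
  rw [sub_eq_add_neg]
  have := x.map_add' f (-g)
  rwa [BAneg] at this

/-- sum of the norms of the coefficients -/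
noncomputable def cN (h : K[X]) : ℝ := ∑ i ∈ Finset.range (h.natDegree + 1), ‖h.coeff i‖

lemma cN_nonneg (h : K[X]) : 0 ≤ cN h := Finset.sum_nonneg fun _ _ => norm_nonneg _

lemma ub (x : BA K) (h : K[X]) {N : ℕ} (hN : h.natDegree ≤ N) :
    x h ≤ cN h * max 1 (x X) ^ N := by
  conv_lhs => rw [h.as_sum_range_C_mul_X_pow]
  refine (BAsum _ _ _).trans ?_
  unfold cN
  rw [Finset.sum_mul]
  refine Finset.sum_le_sum fun i hi => ?_
  have hi' : i ≤ N := by have := Finset.mem_range.1 hi; omega
  rw [x.map_mul', x.map_C', BA.map_pow]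
  refine mul_le_mul_of_nonneg_left ?_ (norm_nonneg _)
  calc x X ^ i ≤ max 1 (x X) ^ i := pow_le_pow_left₀ (x.nonneg' _) (le_max_right _ _) _
    _ ≤ max 1 (x X) ^ N := pow_le_pow_right₀ (le_max_left _ _) hi'

/-- `h` of degree `d` is at least `c |X|^d` far away from zero -/
lemma lbfar (h : K[X]) (hd : 1 ≤ h.natDegree) : ∃ ρ : ℝ, 1 ≤ ρ ∧ ∀ x : BA K, ρ < x X →
    ‖h.leadingCoeff‖ * x X ^ h.natDegree ≤ x h := by
  have h0 : h ≠ 0 := by rintro rfl; simp at hd
  have hl : 0 < ‖h.leadingCoeff‖ := by simpa using h0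
  refine ⟨max 1 (cN h.eraseLead / ‖h.leadingCoeff‖), le_max_left _ _, fun x hx => ?_⟩
  have h1 : 1 < x X := lt_of_le_of_lt (le_max_left _ _) hx
  have h2 : cN h.eraseLead < ‖h.leadingCoeff‖ * x X := by
    have := lt_of_le_of_lt (le_max_right _ _) hx
    rw [div_lt_iff₀ hl] at this
    linarith
  have h3 : x h.eraseLead ≤ cN h.eraseLead * x X ^ (h.natDegree - 1) := by
    have := ub x h.eraseLead (eraseLead_natDegree_le h)
    rwa [max_eq_right h1.le] at this
  have h4 : x h.eraseLead < ‖h.leadingCoeff‖ * x X ^ h.natDegree := by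
    obtain ⟨e, he⟩ : ∃ e, h.natDegree = e + 1 := ⟨h.natDegree - 1, by omega⟩
    rw [he] at h3 ⊢
    have hp : 0 < x X ^ e := by positivity
    simp only [Nat.add_sub_cancel] at h3
    calc _ ≤ cN h.eraseLead * x X ^ e := h3
      _ < (‖h.leadingCoeff‖ * x X) * x X ^ e := by
        exact mul_lt_mul_of_pos_right h2 hp
      _ = _ := by ring
  have h5 : ‖h.leadingCoeff‖ * x X ^ h.natDegree ≤ max (x h) (x h.eraseLead) := by
    have e : C h.leadingCoeff * X ^ h.natDegree = h - h.eraseLead := by
      have := h.eraseLead_add_C_mul_X_pow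
      rw [add_comm] at this
      exact eq_sub_of_add_eq this
    calc _ = x (C h.leadingCoeff * X ^ h.natDegree) := by
          rw [x.map_mul', x.map_C', BA.map_pow]
      _ = x (h - h.eraseLead) := by rw [e]
      _ ≤ _ := BAsub _ _ _
  rcases le_max_iff.1 h5 with h | h
  · exact h
  · linarith

/-- lower bound for `max (x P) (x Q)` -/
lemma low (R : RMap K) : ∃ D : ℝ, 0 < D ∧ ∀ x : BA K,
    max 1 (x X) ^ R.d ≤ D * max (x R.P) (x R.Q) := by
  obtain ⟨a, b, hab⟩ := R.cop
  -- Bezout
  set N := max a.natDegree b.natDegree with hN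
  have hbez : ∀ x : BA K, 1 ≤ ((cN a + cN b) * max 1 (x X) ^ N) * max (x R.P) (x R.Q) := by
    intro x
    have h1 : x (a * R.P + b * R.Q) ≤ max (x (a * R.P)) (x (b * R.Q)) := x.map_add' _ _
    rw [hab, BA.map_one, x.map_mul', x.map_mul'] at h1
    have ha := ub x a (N := N) (le_max_left _ _)
    have hb := ub x b (N := N) (le_max_right _ _)
    have hM0 : 0 ≤ max (x R.P) (x R.Q) := le_max_of_le_left (x.nonneg' _)
    have hp : 0 ≤ max 1 (x X) ^ N := by positivity
    have ca := cN_nonneg a
    have cb := cN_nonneg b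
    have ha' : x a ≤ (cN a + cN b) * max 1 (x X) ^ N := by nlinarith
    have hb' : x b ≤ (cN a + cN b) * max 1 (x X) ^ N := by nlinarith
    refine h1.trans (max_le ?_ ?_)
    · exact mul_le_mul ha' (le_max_left _ _) (x.nonneg' _) (by positivity)
    · exact mul_le_mul hb' (le_max_right _ _) (x.nonneg' _) (by positivity)
  -- far away
  have hfar : ∃ (ρ : ℝ) (l : ℝ), 1 ≤ ρ ∧ 0 < l ∧ ∀ x : BA K, ρ < x X →
      l * x X ^ R.d ≤ max (x R.P) (x R.Q) := by
    have hd := R.deg_eq
    have hpos := R.pos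
    rcases max_cases R.P.natDegree R.Q.natDegree with ⟨h, _⟩ | ⟨h, _⟩
    · rw [hd] at h
      obtain ⟨ρ, h1, h2⟩ := lbfar R.P (by omega)
      have h0 : R.P ≠ 0 := by intro h'; rw [h'] at h; simp at h; omega
      refine ⟨ρ, ‖R.P.leadingCoeff‖, h1, by simpa using h0, fun x hx => ?_⟩
      rw [h]
      exact (h2 x hx).trans (le_max_left _ _)
    · rw [hd] at h
      obtain ⟨ρ, h1, h2⟩ := lbfar R.Q (by omega)
      have h0 : R.Q ≠ 0 := by intro h'; rw [h'] at h; simp at h; omega
      refine ⟨ρ, ‖R.Q.leadingCoeff‖, h1, by simpa using h0, fun x hx => ?_⟩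
      rw [h]
      exact (h2 x hx).trans (le_max_right _ _)
  obtain ⟨ρ, l, h1, hl, h2⟩ := hfar
  have hC : 0 ≤ cN a + cN b := add_nonneg (cN_nonneg a) (cN_nonneg b)
  refine ⟨(cN a + cN b) * ρ ^ N * ρ ^ R.d + 1 / l, by positivity, fun x => ?_⟩
  have hM0 : 0 ≤ max (x R.P) (x R.Q) := le_max_of_le_left (x.nonneg' _)
  rw [add_mul]
  by_cases hx : ρ < x X
  · have := h2 x hx
    have h3 : max 1 (x X) = x X := max_eq_right (by linarith)
    rw [h3]
    have h4 : x X ^ R.d ≤ 1 / l * max (x R.P) (x R.Q) := by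
      rw [div_mul_eq_mul_div, one_mul, le_div_iff₀ hl]
      linarith
    have : 0 ≤ (cN a + cN b) * ρ ^ N * ρ ^ R.d * max (x R.P) (x R.Q) := by positivity
    linarith
  · push Not at hx
    have h3 : max 1 (x X) ≤ ρ := max_le h1 hx
    have h4 := hbez x
    have h5 : (cN a + cN b) * max 1 (x X) ^ N * max (x R.P) (x R.Q) ≤
        (cN a + cN b) * ρ ^ N * max (x R.P) (x R.Q) := by gcongr
    have h6 : max 1 (x X) ^ R.d ≤ ρ ^ R.d := by gcongr
    have h7 : ρ ^ R.d * 1 ≤ ρ ^ R.d * ((cN a + cN b) * ρ ^ N * max (x R.P) (x R.Q)) := by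
      apply mul_le_mul_of_nonneg_left (h4.trans h5)
      positivity
    have : 0 ≤ 1 / l * max (x R.P) (x R.Q) := by positivity
    nlinarith

/-- the quotient `(Q(a)P(X) - P(a)Q(X))/(X - a)` expanded at a point -/
noncomputable def Bq (d : ℕ) (p q : ℕ → K) (w : K[X]) (v : K) : K[X] :=
  ∑ i ∈ Finset.range (d + 1), ∑ j ∈ Finset.range (d + 1),
    C (p j * q i - p i * q j) * (C v ^ i * ∑ k ∈ Finset.range j, w ^ k * C v ^ (j - 1 - k))

lemma Bq_mul (d : ℕ) (p q : ℕ → K) (w : K[X]) (v : K) :
    Bq d p q w v * (w - C v) =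
      (∑ i ∈ Finset.range (d + 1), C (q i) * C v ^ i) *
        (∑ i ∈ Finset.range (d + 1), C (p i) * w ^ i) -
      (∑ i ∈ Finset.range (d + 1), C (p i) * C v ^ i) *
        (∑ i ∈ Finset.range (d + 1), C (q i) * w ^ i) := by
  have e1 : Bq d p q w v * (w - C v) =
      (∑ i ∈ Finset.range (d + 1), C (q i) * C v ^ i) *
        (∑ j ∈ Finset.range (d + 1), C (p j) * (w ^ j - C v ^ j)) -
      (∑ i ∈ Finset.range (d + 1), C (p i) * C v ^ i) *
        (∑ j ∈ Finset.range (d + 1), C (q j) * (w ^ j - C v ^ j)) := by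
    unfold Bq
    rw [Finset.sum_mul_sum, Finset.sum_mul_sum, Finset.sum_mul, ← Finset.sum_sub_distrib]
    refine Finset.sum_congr rfl fun i _ => ?_
    rw [Finset.sum_mul, ← Finset.sum_sub_distrib]
    refine Finset.sum_congr rfl fun j _ => ?_
    rw [mul_assoc, mul_assoc, geom_sum₂_mul]
    simp only [C_sub, C_mul]
    ring
  rw [e1]
  simp only [mul_sub, Finset.sum_sub_distrib]
  ring

lemma Bq_le (x : BA K) (d : ℕ) (p q : ℕ → K) (w : K[X]) (v : K) (L E : ℝ) (hL : 0 ≤ L)
    (hw : x w ≤ L) (hv : ‖v‖ ≤ L) (hE0 : 0 ≤ E)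
    (hE : ∀ i j, i ≤ d → j ≤ d → 1 ≤ j → ‖p j * q i - p i * q j‖ * L ^ (i + j - 1) ≤ E) :
    x (Bq d p q w v) ≤ (d + 1) ^ 3 * E := by
  unfold Bq
  have hterm : ∀ i ∈ Finset.range (d + 1), ∀ j ∈ Finset.range (d + 1),
      x (C (p j * q i - p i * q j) * (C v ^ i * ∑ k ∈ Finset.range j, w ^ k * C v ^ (j - 1 - k)))
        ≤ (d + 1) * E := by
    intro i hi j hj
    have hi' : i ≤ d := by have := Finset.mem_range.1 hi; omega
    have hj' : j ≤ d := by have := Finset.mem_range.1 hj; omega
    rw [x.map_mul', x.map_C', x.map_mul', BA.map_pow, x.map_C']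
    rcases Nat.eq_zero_or_pos j with h0 | h0
    · subst h0
      simp [BA.map_zero]
      positivity
    have h1 : x (∑ k ∈ Finset.range j, w ^ k * C v ^ (j - 1 - k)) ≤ j * L ^ (j - 1) := by
      refine (BAsum _ _ _).trans ?_
      have : ∀ k ∈ Finset.range j, x (w ^ k * C v ^ (j - 1 - k)) ≤ L ^ (j - 1) := by
        intro k hk
        have hk' := Finset.mem_range.1 hk
        rw [x.map_mul', BA.map_pow, BA.map_pow, x.map_C']
        calc x w ^ k * ‖v‖ ^ (j - 1 - k) ≤ L ^ k * L ^ (j - 1 - k) := by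
              have := x.nonneg' w
              gcongr
          _ = L ^ (j - 1) := by rw [← pow_add]; congr 1; omega
      refine (Finset.sum_le_sum this).trans ?_
      simp
    have h2 := hE i j hi' hj' h0
    calc ‖p j * q i - p i * q j‖ * (‖v‖ ^ i * x (∑ k ∈ Finset.range j, w ^ k * C v ^ (j - 1 - k)))
        ≤ ‖p j * q i - p i * q j‖ * (L ^ i * (j * L ^ (j - 1))) := by
          have := x.nonneg' (∑ k ∈ Finset.range j, w ^ k * C v ^ (j - 1 - k))
          gcongr
      _ = j * (‖p j * q i - p i * q j‖ * L ^ (i + j - 1)) := by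
          have : i + j - 1 = i + (j - 1) := by omega
          rw [this, pow_add]; ring
      _ ≤ (d + 1) * E := by
          have : (j : ℝ) ≤ d + 1 := by exact_mod_cast (by omega : j ≤ d + 1)
          gcongr
  refine (BAsum _ _ _).trans ?_
  calc _ ≤ ∑ i ∈ Finset.range (d + 1), ∑ j ∈ Finset.range (d + 1), ((d + 1) * E : ℝ) := by
        refine Finset.sum_le_sum fun i hi => (BAsum _ _ _).trans ?_
        exact Finset.sum_le_sum fun j hj => hterm i hi j hj
    _ = _ := by
        simp only [Finset.sum_const, Finset.card_range, nsmul_eq_mul]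
        push_cast
        ring

lemma tay_sum (c : K) (P : K[X]) {d : ℕ} (hd : P.natDegree ≤ d) :
    ∑ i ∈ Finset.range (d + 1), C ((taylor c P).coeff i) * (X - C c) ^ i = P := by
  have h := sum_taylor_eq P c
  rw [sum_over_range' _ (by simp) (d + 1) (by rw [natDegree_taylor]; omega)] at h
  exact h

lemma tay_eval (c w : K) (P : K[X]) {d : ℕ} (hd : P.natDegree ≤ d) :
    ∑ i ∈ Finset.range (d + 1), C ((taylor c P).coeff i) * C (w - c) ^ i = C (P.eval w) := by
  conv_rhs => rw [← tay_sum c P hd]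
  rw [eval_finsetSum]
  simp only [eval_mul, eval_C, eval_pow, eval_sub, eval_X, map_sum, C_mul, C_pow]

/-- the coefficient of degree `2d-2` of the Wronskian -/
lemma wr_top (R : RMap K) : (wr R).coeff (2 * R.d - 2) =
    R.P.coeff R.d * R.Q.coeff (R.d - 1) - R.P.coeff (R.d - 1) * R.Q.coeff R.d := by
  obtain ⟨e, he⟩ : ∃ e, R.d = e + 1 := ⟨R.d - 1, by have := R.pos; omega⟩
  have hP : R.P.natDegree ≤ e + 1 := by rw [← he, ← R.deg_eq]; exact le_max_left _ _
  have hQ : R.Q.natDegree ≤ e + 1 := by rw [← he, ← R.deg_eq]; exact le_max_right _ _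
  rw [he]
  have key : ∀ F : K[X], F.natDegree ≤ e + 1 →
      (X * derivative F - C ((e : K) + 1) * F).natDegree ≤ e ∧
      (X * derivative F - C ((e : K) + 1) * F).coeff e = - F.coeff e := by
    intro F hF
    have hco : ∀ n : ℕ, (X * derivative F - C ((e : K) + 1) * F).coeff n =
        ((n : K) - (e + 1)) * F.coeff n := by
      intro n
      rw [coeff_sub, coeff_C_mul]
      cases n with
      | zero => simp; ring
      | succ n =>
        rw [coeff_X_mul, coeff_derivative]
        push_cast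
        ring
    constructor
    · rw [natDegree_le_iff_coeff_eq_zero]
      intro n hn
      rw [hco]
      rcases Nat.lt_or_ge (e + 1) n with h | h
      · rw [coeff_eq_zero_of_natDegree_lt (lt_of_le_of_lt hF h), mul_zero]
      · have : n = e + 1 := by omega
        subst this
        push_cast
        ring
    · rw [hco]; ring
  obtain ⟨p1, p2⟩ := key _ hP
  obtain ⟨q1, q2⟩ := key _ hQ
  have hX : X * wr R = (X * derivative R.P - C ((e : K) + 1) * R.P) * R.Q -
      (X * derivative R.Q - C ((e : K) + 1) * R.Q) * R.P := by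
    unfold wr; ring
  have e1 : (wr R).coeff (2 * (e + 1) - 2) = (X * wr R).coeff (e + (e + 1)) := by
    have : e + (e + 1) = 2 * (e + 1) - 2 + 1 := by omega
    rw [this, coeff_X_mul]
  rw [e1, hX, coeff_sub, coeff_mul_add_eq_of_natDegree_le p1 hQ,
    coeff_mul_add_eq_of_natDegree_le q1 hP, p2, q2]
  simp only [Nat.add_sub_cancel]
  ring

end

section
variable {K : Type u} [NontriviallyNormedField K] [IsUltrametricDist K]

lemma nat_norm_le (n : ℕ) : ‖(n : K)‖ ≤ 1 := IsUltrametricDist.norm_natCast_le_one K n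

/-- derivative estimate -/
lemma der (a : K) (r : ℝ) (hr : 0 < r) (g : K[X]) :
    (gauss a r hr) (derivative g) * r ≤ (gauss a r hr) g := by
  change (taylor a (derivative g)).gaussNorm (NormedField.toAbsoluteValue K) r * r ≤
    (taylor a g).gaussNorm (NormedField.toAbsoluteValue K) r
  have e : taylor a (derivative g) = derivative (taylor a g) := by
    rw [taylor_apply, taylor_apply, derivative_comp]
    simp
  obtain ⟨i, hi⟩ := exists_eq_gaussNorm (NormedField.toAbsoluteValue K) r (taylor a (derivative g))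
  rw [hi, e, coeff_derivative]
  have h := le_gaussNorm (NormedField.toAbsoluteValue K) (taylor a g) hr.le (i + 1)
  refine le_trans ?_ h
  have h1 : (NormedField.toAbsoluteValue K) ((taylor a g).coeff (i + 1) * ((i : K) + 1)) ≤
      (NormedField.toAbsoluteValue K) ((taylor a g).coeff (i + 1)) := by
    change ‖(taylor a g).coeff (i + 1) * ((i : K) + 1)‖ ≤ ‖(taylor a g).coeff (i + 1)‖
    rw [norm_mul]
    have := nat_norm_le (K := K) (i + 1)
    push_cast at this
    exact mul_le_of_le_one_right (norm_nonneg _) this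
  rw [pow_succ, ← mul_assoc]
  gcongr

lemma coeff_le (c : K) (h : K[X]) (i : ℕ) :
    ‖(taylor c h).coeff i‖ ≤ (gauss c 1 one_pos) h := by
  have := le_gaussNorm (NormedField.toAbsoluteValue K) (taylor c h) zero_le_one i
  rw [one_pow, mul_one] at this
  exact this


lemma tay_le (hG : S_GLAM.{u}) (c : K) (h : K[X]) {N : ℕ} (hN : h.natDegree ≤ N) (i : ℕ) :
    ‖(taylor c h).coeff i‖ ≤ cN h * (1 + ‖c‖) ^ N := by
  refine (coeff_le c h i).trans ((ub _ h hN).trans ?_)
  have h1 : (gauss c 1 one_pos) (X : K[X]) = max ‖c‖ 1 := by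
    have := (hG K c 0).2 1 one_pos
    simpa [lam] using this
  rw [h1]
  have h2 : max 1 (max ‖c‖ 1) ≤ 1 + ‖c‖ := by
    have := norm_nonneg c
    refine max_le (by linarith) (max_le (by linarith) (by linarith))
  have := cN_nonneg h
  gcongr

end

theorem main : S_GLAM.{u} → S_ACT.{u} → S_AVOID.{u} → S_GEN.{u} → S_ONE.{u} := by
  intro hGLAM hACT hAVOID hGEN K _ _ _ R
  obtain ⟨D, hD, hlow⟩ := low R
  have hdpos : 1 ≤ R.d := R.pos
  have hP : R.P.natDegree ≤ R.d := by rw [← R.deg_eq]; exact le_max_left _ _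
  have hQ : R.Q.natDegree ≤ R.d := by rw [← R.deg_eq]; exact le_max_right _ _
  have hCP := cN_nonneg R.P
  have hCQ := cN_nonneg R.Q
  have hQ0 : R.Q ≠ 0 := by
    intro h
    have hc := R.cop
    rw [h, isCoprime_zero_right] at hc
    have h1 := natDegree_eq_zero_of_isUnit hc
    have h2 := R.deg_eq
    rw [h, h1] at h2
    simp at h2
    omega
  set B : ℝ := max 1 (2 * (R.d + 1) ^ 3 * cN R.P * cN R.Q * D ^ 2) with hB
  have hB1 : 1 ≤ B := le_max_left _ _
  have hB2 : 2 * (R.d + 1) ^ 3 * cN R.P * cN R.Q * D ^ 2 ≤ B := le_max_right _ _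
  refine ⟨B, hB1, ?_⟩
  rintro x y ⟨a₀, r, hr, ⟨c₀, hc₀⟩, hx⟩ hact
  have hlam : ∀ b, lam x b = max ‖a₀ - b‖ r := by
    intro b; rw [hx]; exact (hGLAM K a₀ b).2 r hr
  have hHK : HK x := by
    intro a h
    have h1 := hlam a
    rw [h, (hGLAM K a a).1] at h1
    have : r ≤ max ‖a₀ - a‖ r := le_max_right _ _
    rw [← h1] at this
    simp at this
    linarith
  have hxX : x X = max ‖a₀‖ r := by
    have := hlam 0
    simpa [lam] using this
  have hinf : (⨅ b : K, lam x b) = r := by
    apply le_antisymm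
    · refine (ciInf_le ⟨0, ?_⟩ a₀).trans ?_
      · rintro _ ⟨b, rfl⟩
        exact x.nonneg' _
      · rw [hlam]; simp [hr.le]
    · exact le_ciInf fun b => by rw [hlam]; exact le_max_right _ _
  set m : ℝ := max 1 (x X) with hm
  have hm1 : 1 ≤ m := le_max_left _ _
  have hm0 : 0 < m := by linarith
  have hdl : dl x = r / m ^ 2 := by unfold dl; rw [hinf]
  have hdlpos : 0 < dl x := by rw [hdl]; positivity
  have hdl1 : dl x ≤ 1 := by
    rw [hdl, div_le_one (by positivity)]
    have hrm : r ≤ m := (le_max_right ‖a₀‖ r).trans ((le_of_eq hxX.symm).trans (le_max_right _ _))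
    nlinarith
  -- the image
  obtain ⟨y', _, hy2, _, hylam⟩ := (hACT K R).1 x hHK
  have hyy : y = y' := by
    have : ((y : BA K) : P1B K) = ((y' : BA K) : P1B K) := by rw [← hact, ← hy2]
    exact OnePoint.coe_injective this
  subst hyy
  have hxQ : 0 < x R.Q := lt_of_le_of_ne (x.nonneg' _) (Ne.symm ((hAVOID K x hHK).1 _ hQ0))
  set M : ℝ := max (x R.P) (x R.Q) with hM
  have hM0 : 0 < M := lt_of_lt_of_le hxQ (le_max_right _ _)
  have hyX : max 1 (y X) = M / x R.Q := by
    have h1 := hylam 0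
    have h2 : y X = x R.P / x R.Q := by simpa [lam] using h1
    rw [h2, hM, ← max_div_div_right hxQ.le, div_self hxQ.ne', max_comm]
  have hdly : dl y = (⨅ b : K, lam y b) * x R.Q ^ 2 / M ^ 2 := by
    unfold dl
    rw [hyX]
    field_simp
  have hbdd : BddBelow (Set.range fun b : K => lam y b) := by
    refine ⟨0, ?_⟩
    rintro _ ⟨b, rfl⟩
    exact y.nonneg' _
  -- generic point
  have hc0 : c₀ ≠ 0 := by rintro rfl; simp at hc₀; linarith
  obtain ⟨w, hw1, _, hw3⟩ := hGEN K a₀ c₀ {R.Q} ∅ hc0 (by simpa using hQ0)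
  have hwQ : ‖R.Q.eval w‖ = x R.Q := by
    rw [hw3 R.Q (by simp), hx, hc₀]
    rfl
  have hwQ0 : R.Q.eval w ≠ 0 := by
    intro h; rw [h, norm_zero] at hwQ; linarith
  rw [hc₀] at hw1
  have hlw : lam x w = r := by
    rw [hlam, max_eq_right]
    rw [norm_sub_rev]; exact hw1
  have hwc : ∀ c : K, ‖w - c‖ ≤ lam x c := by
    intro c
    rw [hlam]
    have : w - c = (w - a₀) + (a₀ - c) := by ring
    rw [this]
    refine (IsUltrametricDist.norm_add_le_max _ _).trans ?_
    exact max_le (hw1.trans (le_max_right _ _)) (le_max_left _ _)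
  have up : ∀ c : K, dl y ≤ r * x (Bq R.d (fun i => (taylor c R.P).coeff i)
      (fun i => (taylor c R.Q).coeff i) (X - C c) (w - c)) / M ^ 2 := by
    intro c
    set Bw := Bq R.d (fun i => (taylor c R.P).coeff i)
      (fun i => (taylor c R.Q).coeff i) (X - C c) (w - c) with hBw
    have h1 : Bw * (X - C w) = C (R.Q.eval w) * R.P - C (R.P.eval w) * R.Q := by
      have := Bq_mul R.d (fun i => (taylor c R.P).coeff i)
        (fun i => (taylor c R.Q).coeff i) (X - C c) (w - c)
      rw [tay_sum c R.P hP, tay_sum c R.Q hQ, tay_eval c w R.P hP, tay_eval c w R.Q hQ] at this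
      rw [← this, ← hBw]
      congr 1
      rw [C_sub]; ring
    have h2 : C (R.Q.eval w) * (R.P - C (R.P.eval w / R.Q.eval w) * R.Q) =
        C (R.Q.eval w) * R.P - C (R.P.eval w) * R.Q := by
      rw [mul_sub, ← mul_assoc, ← C_mul, mul_div_cancel₀ _ hwQ0]
    have h3 : x R.Q * x (R.P - C (R.P.eval w / R.Q.eval w) * R.Q) = x Bw * r := by
      rw [← hwQ, ← x.map_C', ← x.map_mul', h2, ← h1, x.map_mul', ← hlw]
      rfl
    have h4 : (⨅ b : K, lam y b) ≤ x Bw * r / x R.Q ^ 2 := by
      refine (ciInf_le hbdd (R.P.eval w / R.Q.eval w)).trans ?_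
      rw [hylam, div_le_div_iff₀ hxQ (by positivity)]
      have : x (R.P - C (R.P.eval w / R.Q.eval w) * R.Q) * x R.Q ^ 2 =
        (x R.Q * x (R.P - C (R.P.eval w / R.Q.eval w) * R.Q)) * x R.Q := by ring
      rw [this, h3]
    rw [hdly]
    have h5 : (⨅ b : K, lam y b) * x R.Q ^ 2 ≤ r * x Bw := by
      rw [le_div_iff₀ (by positivity)] at h4
      linarith
    gcongr
  have hpq : ∀ (c : K) (i j : ℕ), ‖(taylor c R.P).coeff j * (taylor c R.Q).coeff i -
      (taylor c R.P).coeff i * (taylor c R.Q).coeff j‖ ≤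
      2 * cN R.P * cN R.Q * (1 + ‖c‖) ^ (2 * R.d) := by
    intro c i j
    refine (norm_sub_le _ _).trans ?_
    rw [norm_mul, norm_mul]
    have h1 := tay_le hGLAM c R.P hP
    have h2 := tay_le hGLAM c R.Q hQ
    have hc := norm_nonneg c
    have e : (1 + ‖c‖) ^ (2 * R.d) = (1 + ‖c‖) ^ R.d * (1 + ‖c‖) ^ R.d := by
      rw [← pow_add]; congr 1; omega
    rw [e]
    have h3 : ‖(taylor c R.P).coeff j‖ * ‖(taylor c R.Q).coeff i‖ ≤
      (cN R.P * (1 + ‖c‖) ^ R.d) * (cN R.Q * (1 + ‖c‖) ^ R.d) :=
      mul_le_mul (h1 j) (h2 i) (norm_nonneg _) (by positivity)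
    have h4 : ‖(taylor c R.P).coeff i‖ * ‖(taylor c R.Q).coeff j‖ ≤
      (cN R.P * (1 + ‖c‖) ^ R.d) * (cN R.Q * (1 + ‖c‖) ^ R.d) :=
      mul_le_mul (h1 i) (h2 j) (norm_nonneg _) (by positivity)
    linarith
  have hMm : m ^ (2 * R.d) ≤ D ^ 2 * M ^ 2 := by
    have h1 := hlow x
    have h2 : (m ^ R.d) ^ 2 ≤ (D * M) ^ 2 := by gcongr
    calc m ^ (2 * R.d) = (m ^ R.d) ^ 2 := by rw [← pow_mul]; congr 1; omega
      _ ≤ (D * M) ^ 2 := h2
      _ = _ := by ring
  have fin : ∀ (c : K) (F G : ℝ), 0 ≤ F → 0 ≤ G →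
      x (Bq R.d (fun i => (taylor c R.P).coeff i)
        (fun i => (taylor c R.Q).coeff i) (X - C c) (w - c)) ≤
        (R.d + 1) ^ 3 * (2 * cN R.P * cN R.Q * F) →
      F * m ^ 2 ≤ G * m ^ (2 * R.d) → dl y ≤ B * G * dl x := by
    intro c F G hF hG h1 h2
    refine (up c).trans ?_
    rw [hdl]
    have h3 : r * x (Bq R.d (fun i => (taylor c R.P).coeff i)
        (fun i => (taylor c R.Q).coeff i) (X - C c) (w - c)) / M ^ 2 ≤
        r * ((R.d + 1) ^ 3 * (2 * cN R.P * cN R.Q * F)) / M ^ 2 := by gcongr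
    refine h3.trans ?_
    rw [← mul_div_assoc, div_le_div_iff₀ (by positivity) (by positivity)]
    have h4 : F * m ^ 2 ≤ G * (D ^ 2 * M ^ 2) := h2.trans (by gcongr)
    calc r * ((R.d + 1) ^ 3 * (2 * cN R.P * cN R.Q * F)) * m ^ 2
        = (r * ((R.d + 1) ^ 3 * (2 * cN R.P * cN R.Q))) * (F * m ^ 2) := by ring
      _ ≤ (r * ((R.d + 1) ^ 3 * (2 * cN R.P * cN R.Q))) * (G * (D ^ 2 * M ^ 2)) := by gcongr
      _ = (2 * (R.d + 1) ^ 3 * cN R.P * cN R.Q * D ^ 2) * (G * r * M ^ 2) := by ring
      _ ≤ B * (G * r * M ^ 2) := by gcongr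
      _ = B * G * r * M ^ 2 := by ring
  have htay0 : ∀ h : K[X], taylor 0 h = h := by intro h; simp
  -- (i)
  have hone : dl y ≤ B * dl x := by
    have := fin 0 (m ^ (2 * R.d - 2)) 1 (by positivity) zero_le_one ?_ ?_
    · simpa using this
    · refine Bq_le x _ _ _ _ _ m _ hm0.le ?_ ?_ (by positivity) ?_
      · simp [hm]
      · have := hwc 0
        refine this.trans ?_
        simp [lam, hm]
      · intro i j hi hj hj1
        by_cases hij : i = j
        · subst hij
          rw [sub_self, norm_zero, zero_mul]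
          positivity
        · have h1 := hpq 0 i j
          rw [norm_zero, add_zero, one_pow, mul_one] at h1
          have h2 : m ^ (i + j - 1) ≤ m ^ (2 * R.d - 2) :=
            pow_le_pow_right₀ hm1 (by omega)
          exact mul_le_mul h1 h2 (by positivity) (by positivity)
    · rw [one_mul, ← pow_add]
      exact le_of_eq (by congr 1; omega)
  refine ⟨hdlpos, hdl1, hone, ?_, ?_, ?_⟩
  · -- (ii)
    intro c hc
    have hcn := norm_nonneg c
    have hl0 : 0 ≤ lam x c := x.nonneg' _
    have hk : 1 ≤ (1 + ‖c‖) ^ (2 * R.d) := one_le_pow₀ (by linarith)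
    rcases le_or_gt (lam x c) 1 with hl | hl
    · have := fin c ((1 + ‖c‖) ^ (2 * R.d) * lam x c) ((1 + ‖c‖) ^ (2 * R.d) * lam x c)
        (by positivity) (by positivity) ?_ ?_
      · linarith
      · refine Bq_le x _ _ _ _ _ (lam x c) _ hl0 le_rfl (hwc c) (by positivity) ?_
        intro i j hi hj hj1
        by_cases hij : i = j
        · subst hij
          rw [sub_self, norm_zero, zero_mul]
          positivity
        · by_cases h2 : i + j = 1
          · have hi0 : i = 0 := by omega
            have hj0 : j = 1 := by omega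
            subst hi0 hj0
            have : (taylor c R.P).coeff 1 * (taylor c R.Q).coeff 0 -
                (taylor c R.P).coeff 0 * (taylor c R.Q).coeff 1 = (wr R).eval c := by
              rw [taylor_coeff_one, taylor_coeff_one, taylor_coeff_zero, taylor_coeff_zero]
              simp [wr]
            rw [this, hc, norm_zero, zero_mul]
            positivity
          · have h1 := hpq c i j
            have h3 : lam x c ^ (i + j - 1) ≤ lam x c := by
              calc lam x c ^ (i + j - 1) ≤ lam x c ^ 1 :=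
                    pow_le_pow_of_le_one hl0 hl (by omega)
                _ = _ := pow_one _
            calc _ ≤ (2 * cN R.P * cN R.Q * (1 + ‖c‖) ^ (2 * R.d)) * lam x c :=
                  mul_le_mul h1 h3 (by positivity) (by positivity)
              _ = _ := by ring
      · have : m ^ 2 ≤ m ^ (2 * R.d) := pow_le_pow_right₀ hm1 (by omega)
        gcongr
    · refine hone.trans ?_
      have h1 : B * dl x * 1 ≤ B * dl x * ((1 + ‖c‖) ^ (2 * R.d) * lam x c) := by
        apply mul_le_mul_of_nonneg_left _ (by positivity)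
        nlinarith
      linarith
  · -- (iii)
    intro hw
    rw [wr_top] at hw
    have := fin 0 (m ^ (2 * R.d - 2) / m) (1 / m) (by positivity) (by positivity) ?_ ?_
    · rw [mul_one_div] at this
      calc _ ≤ B / m * dl x := this
        _ = _ := by ring
    · refine Bq_le x _ _ _ _ _ m _ hm0.le ?_ ?_ (by positivity) ?_
      · simp [hm]
      · have := hwc 0
        refine this.trans ?_
        simp [lam, hm]
      · intro i j hi hj hj1
        simp only [htay0]
        by_cases hij : i = j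
        · subst hij
          rw [mul_comm (R.P.coeff i), sub_self, norm_zero, zero_mul]
          positivity
        · by_cases htop : i + j = 2 * R.d - 1
          · have h0 : R.P.coeff j * R.Q.coeff i - R.P.coeff i * R.Q.coeff j = 0 := by
              rcases Nat.lt_or_gt_of_ne hij with h | h
              · have h1 : j = R.d := by omega
                have h2 : i = R.d - 1 := by omega
                rw [h1, h2]; exact hw
              · have h1 : i = R.d := by omega
                have h2 : j = R.d - 1 := by omega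
                rw [h1, h2]
                linear_combination -hw
            rw [h0, norm_zero, zero_mul]
            positivity
          · have h1 := hpq 0 i j
            simp only [htay0] at h1
            rw [norm_zero, add_zero, one_pow, mul_one] at h1
            have h2 : m ^ (i + j - 1) ≤ m ^ (2 * R.d - 2) / m := by
              rw [le_div_iff₀ hm0, ← pow_succ]
              exact pow_le_pow_right₀ hm1 (by omega)
            exact mul_le_mul h1 h2 (by positivity) (by positivity)
    · have : m ^ (2 * R.d) = m ^ (2 * R.d - 2) * m ^ 2 := by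
        rw [← pow_add]; congr 1; omega
      rw [this]
      apply le_of_eq
      ring
  · -- (iv)
    have hsph : sphDeriv R ((x : BA K) : P1B K) = x (wr R) * m ^ 2 / M ^ 2 := rfl
    rw [hsph, hdl, hdly]
    have h1 : x (wr R) * r ≤ (⨅ b : K, lam y b) * x R.Q ^ 2 := by
      rw [← div_le_iff₀ (by positivity)]
      refine le_ciInf fun b => ?_
      rw [hylam, div_le_div_iff₀ (by positivity) hxQ]
      have hW : wr R = derivative (R.P - C b * R.Q) * R.Q - (R.P - C b * R.Q) * derivative R.Q := by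
        unfold wr
        simp only [derivative_sub, derivative_mul, derivative_C, zero_mul, zero_add]
        ring
      have h2 : x (wr R) ≤ max (x (derivative (R.P - C b * R.Q)) * x R.Q)
          (x (R.P - C b * R.Q) * x (derivative R.Q)) := by
        rw [hW, ← x.map_mul', ← x.map_mul']
        exact BAsub _ _ _
      have h3 : x (derivative (R.P - C b * R.Q)) * r ≤ x (R.P - C b * R.Q) := by
        rw [hx]; exact der a₀ r hr _
      have h4 : x (derivative R.Q) * r ≤ x R.Q := by
        rw [hx]; exact der a₀ r hr _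
      have h5 : x (wr R) * r ≤ x (R.P - C b * R.Q) * x R.Q := by
        refine (mul_le_mul_of_nonneg_right h2 hr.le).trans ?_
        rw [max_mul_of_nonneg _ _ hr.le]
        refine max_le ?_ ?_
        · calc _ = (x (derivative (R.P - C b * R.Q)) * r) * x R.Q := by ring
            _ ≤ _ := by gcongr
        · calc _ = x (R.P - C b * R.Q) * (x (derivative R.Q) * r) := by ring
            _ ≤ _ := by
              have := x.nonneg' (R.P - C b * R.Q)
              gcongr
      calc x (wr R) * r * x R.Q ≤ (x (R.P - C b * R.Q) * x R.Q) * x R.Q := by gcongr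
        _ = _ := by ring
    calc x (wr R) * m ^ 2 / M ^ 2 * (r / m ^ 2) = x (wr R) * r / M ^ 2 := by field_simp
      _ ≤ _ := by gcongr

end Pool.Agent.W655.BK
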